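import Mathlib

set_option autoImplicit false

namespace Pool.Agent.Lib_b63848

variable {α β : Type*}

/-- The submonoid of `List α × List β` generated by `X`, as a relation. -/
inductive S (X : List (List α × List β)) : List α → List β → Prop
  | nil : S X [] []
  | snoc {u : List α} {v : List β} {x : List α} {y : List β} :
      S X u v → (x, y) ∈ X → S X (u ++ x) (v ++ y)

/-- Standing assumptions on the generating set. -/
structure Hyp (X : List (List α × List β)) (N : ℕ) : Prop where
  ne1 : ∀ p ∈ X, p.1 ≠ []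
  ne2 : ∀ p ∈ X, p.2 ≠ []
  len1 : ∀ p ∈ X, p.1.length ≤ N
  len2 : ∀ p ∈ X, p.2.length ≤ N
  tot1 : ∀ a : α, ∃ y, ([a], y) ∈ X
  tot2 : ∀ b : β, ∃ x, (x, [b]) ∈ X

variable {X : List (List α × List β)} {N : ℕ}

theorem S.of_mem {x : List α} {y : List β} (h : (x, y) ∈ X) : S X x y := by
  have := S.snoc (S.nil (X := X)) h
  simpa using this

theorem S.mul {u : List α} {v : List β} {u' : List α} {v' : List β} (h : S X u v)
    (h' : S X u' v') : S X (u ++ u') (v ++ v') := by
  induction h' with
  | nil => simpa using h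
  | snoc _ hx ih =>
    rw [← List.append_assoc, ← List.append_assoc]
    exact S.snoc ih hx

theorem S.len (H : Hyp X N) {u : List α} {v : List β} (h : S X u v) :
    v.length ≤ N * u.length ∧ u.length ≤ N * v.length := by
  induction h with
  | nil => simp
  | @snoc u v x y _ hx ih =>
    have h1 := H.len1 _ hx
    have h2 := H.len2 _ hx
    have h3 : 1 ≤ x.length := List.length_pos_of_ne_nil (H.ne1 _ hx)
    have h4 : 1 ≤ y.length := List.length_pos_of_ne_nil (H.ne2 _ hx)
    simp only at h1 h2
    rw [List.length_append, List.length_append]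
    constructor
    · nlinarith [ih.1]
    · nlinarith [ih.2]

theorem total1 (H : Hyp X N) (u : List α) : ∃ v, S X u v := by
  induction u with
  | nil => exact ⟨[], S.nil⟩
  | cons a u ih =>
    obtain ⟨v, hv⟩ := ih
    obtain ⟨y, hy⟩ := H.tot1 a
    exact ⟨y ++ v, (S.of_mem hy).mul hv⟩

theorem total2 (H : Hyp X N) (v : List β) : ∃ u, S X u v := by
  induction v with
  | nil => exact ⟨[], S.nil⟩
  | cons a u ih =>
    obtain ⟨v, hv⟩ := ih
    obtain ⟨y, hy⟩ := H.tot2 a
    exact ⟨y ++ v, (S.of_mem hy).mul hv⟩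

theorem cut1 (H : Hyp X N) {u : List α} {v : List β} (h : S X u v) :
    ∀ i ≤ u.length, ∃ p p' q q', u = p ++ p' ∧ v = q ++ q' ∧ S X p q ∧ S X p' q' ∧
      p.length ≤ i ∧ i ≤ p.length + N := by
  induction h with
  | nil =>
    intro i hi
    exact ⟨[], [], [], [], rfl, rfl, S.nil, S.nil, Nat.zero_le _, by simp at hi; omega⟩
  | @snoc u v x y huv hx ih =>
    intro i hi
    rcases le_or_gt i u.length with h | h
    · obtain ⟨p, p', q, q', e1, e2, s1, s2, l1, l2⟩ := ih i h
      refine ⟨p, p' ++ x, q, q' ++ y, ?_, ?_, s1, S.snoc s2 hx, l1, l2⟩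
      · rw [e1, List.append_assoc]
      · rw [e2, List.append_assoc]
    · have h1 := H.len1 _ hx
      simp only at h1
      rw [List.length_append] at hi
      exact ⟨u, x, v, y, rfl, rfl, huv, S.of_mem hx, h.le, by omega⟩

theorem cut2 (H : Hyp X N) {u : List α} {v : List β} (h : S X u v) :
    ∀ i ≤ v.length, ∃ p p' q q', u = p ++ p' ∧ v = q ++ q' ∧ S X p q ∧ S X p' q' ∧
      q.length ≤ i ∧ i ≤ q.length + N := by
  induction h with
  | nil =>
    intro i hi
    exact ⟨[], [], [], [], rfl, rfl, S.nil, S.nil, Nat.zero_le _, by simp at hi; omega⟩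
  | @snoc u v x y huv hx ih =>
    intro i hi
    rcases le_or_gt i v.length with h | h
    · obtain ⟨p, p', q, q', e1, e2, s1, s2, l1, l2⟩ := ih i h
      refine ⟨p, p' ++ x, q, q' ++ y, ?_, ?_, s1, S.snoc s2 hx, l1, l2⟩
      · rw [e1, List.append_assoc]
      · rw [e2, List.append_assoc]
    · have h1 := H.len2 _ hx
      simp only at h1
      rw [List.length_append] at hi
      exact ⟨u, x, v, y, rfl, rfl, huv, S.of_mem hx, h.le, by omega⟩

/-- One zigzag step. -/
def T (X : List (List α × List β)) (u u' : List α) : Prop := ∃ v, S X u v ∧ S X u' v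

/-- The congruence on the left words. -/
def R (X : List (List α × List β)) : List α → List α → Prop := Relation.ReflTransGen (T X)

theorem T.symm {u u' : List α} (h : T X u u') : T X u' u := by
  obtain ⟨v, h1, h2⟩ := h
  exact ⟨v, h2, h1⟩

theorem R.refl (u : List α) : R X u u := Relation.ReflTransGen.refl

theorem R.symm {u u' : List α} (h : R X u u') : R X u' u := by
  induction h with
  | refl => exact R.refl _
  | tail _ h ih => exact Relation.ReflTransGen.head h.symm ih

theorem R.trans {u u' u'' : List α} (h : R X u u') (h' : R X u' u'') : R X u u'' :=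
  Relation.ReflTransGen.trans h h'

theorem R.of_T {u u' : List α} (h : T X u u') : R X u u' := Relation.ReflTransGen.single h

theorem R.ctx (H : Hyp X N) (x y : List α) {u u' : List α} (h : R X u u') :
    R X (x ++ u ++ y) (x ++ u' ++ y) := by
  obtain ⟨x', hx⟩ := total1 H x
  obtain ⟨y', hy⟩ := total1 H y
  induction h with
  | refl => exact R.refl _
  | tail _ h ih =>
    obtain ⟨v, h1, h2⟩ := h
    exact R.trans ih (R.of_T ⟨x' ++ v ++ y', (hx.mul h1).mul hy, (hx.mul h2).mul hy⟩)

/-- A left word is good if its class is a complete bipartite component. -/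
def Good (X : List (List α × List β)) (u : List α) : Prop :=
  ∀ u' u'', R X u u' → R X u u'' → ∀ v, S X u'' v → S X u' v

theorem Good.of_R {u u' : List α} (h : R X u u') (hg : Good X u) : Good X u' :=
  fun a b ha hb v hv => hg a b (h.trans ha) (h.trans hb) v hv

/-- The length bound. -/
def L (N : ℕ) : ℕ := N ^ 4 + N ^ 3 + N ^ 2 + N + 2

/-- The core lemma. -/
theorem core (H : Hyp X N) {u₁ u₂ : List α} {v₁ v₂ : List β}
    (h11 : S X u₁ v₁) (h21 : S X u₂ v₁) (h22 : S X u₂ v₂) (hlen : L N ≤ u₁.length)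
    (hpre : ∀ p a, u₁ = p ++ a → a ≠ [] → Good X p)
    (hsuf : ∀ c x, u₁ = c ++ x → c ≠ [] → Good X x) : S X u₁ v₂ := by
  have hpos : 1 ≤ u₁.length := le_trans (by unfold L; omega) hlen
  obtain ⟨p, a, p', a', e1, e2, spp, saa, l1, l2⟩ := cut1 H h11 (u₁.length - 1) (by omega)
  have ha : a ≠ [] := by
    rintro rfl
    rw [List.append_nil] at e1
    rw [e1] at l1 hpos
    omega
  have hp : Good X p := hpre p a e1 ha
  have hp'len : p'.length ≤ v₁.length := by rw [e2, List.length_append]; omega
  obtain ⟨q'', b'', q', b', e3, e4, sqq, sbb, l3, l4⟩ := cut2 H h21 p'.length hp'len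
  have hq''len : q''.length ≤ u₂.length := by rw [e3, List.length_append]; omega
  obtain ⟨r, c₂, r₃, c₃, e5, e6, srr, scc, l5, l6⟩ := cut1 H h22 q''.length hq''len
  -- p' = q' ++ s', b' = s' ++ a'
  obtain ⟨s', es1, es2⟩ : ∃ s', p' = q' ++ s' ∧ b' = s' ++ a' := by
    have h := e2.symm.trans e4
    rw [List.append_eq_append_iff] at h
    rcases h with ⟨s, h1, h2⟩ | ⟨s, h1, h2⟩
    · have : s = [] := by
        have := congrArg List.length h1
        rw [List.length_append] at this
        exact List.eq_nil_of_length_eq_zero (by omega)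
      subst this
      refine ⟨[], ?_, ?_⟩
      · simpa using h1.symm
      · simpa using h2.symm
    · exact ⟨s, h1, h2⟩
  obtain ⟨t, et1, et2⟩ : ∃ t, q'' = r ++ t ∧ c₂ = t ++ b'' := by
    have h := e3.symm.trans e5
    rw [List.append_eq_append_iff] at h
    rcases h with ⟨s, h1, h2⟩ | ⟨s, h1, h2⟩
    · have : s = [] := by
        have := congrArg List.length h1
        rw [List.length_append] at this
        exact List.eq_nil_of_length_eq_zero (by omega)
      subst this
      refine ⟨[], ?_, ?_⟩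
      · simpa using h1.symm
      · simpa using h2.symm
    · exact ⟨s, h1, h2⟩
  obtain ⟨sh, hsh⟩ := total2 H s'
  obtain ⟨τ, hτ⟩ := total1 H (t ++ sh)
  -- `p ~ r ++ (t ++ sh)`
  have hR1 : R X p (r ++ (t ++ sh)) := by
    apply R.of_T
    refine ⟨p', spp, ?_⟩
    rw [es1, ← List.append_assoc, ← et1]
    exact sqq.mul hsh
  have hS1 : S X p (r₃ ++ τ) := hp p (r ++ (t ++ sh)) (R.refl p) hR1 _ (srr.mul hτ)
  have hr₃len : r₃.length ≤ (r₃ ++ τ).length := by rw [List.length_append]; omega
  obtain ⟨c, ρ, d, d', e7, e8, scd, sρd, l7, l8⟩ := cut2 H hS1 r₃.length hr₃len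
  obtain ⟨ρ₃, er1, er2⟩ : ∃ ρ₃, r₃ = d ++ ρ₃ ∧ d' = ρ₃ ++ τ := by
    rw [List.append_eq_append_iff] at e8
    rcases e8 with ⟨s, h1, h2⟩ | ⟨s, h1, h2⟩
    · have : s = [] := by
        have := congrArg List.length h1
        rw [List.length_append] at this
        exact List.eq_nil_of_length_eq_zero (by omega)
      subst this
      refine ⟨[], ?_, ?_⟩
      · simpa using h1.symm
      · simpa using h2.symm
    · exact ⟨s, h1, h2⟩
  -- `c` is nonempty
  have hc : c ≠ [] := by
    rintro rfl
    have hd := (scd.len H).1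
    simp only [List.length_nil, mul_zero, Nat.le_zero] at hd
    rw [hd, zero_add] at l8
    have b1 := (srr.len H).2
    have b2 := (sqq.len H).1
    have b3 := (spp.len H).2
    have b4 : r.length ≤ N ^ 2 := by nlinarith
    have b5 : q''.length ≤ N ^ 2 + N := by omega
    have b6 : q'.length ≤ N ^ 3 + N ^ 2 := by nlinarith
    have b7 : p'.length ≤ N ^ 3 + N ^ 2 + N := by omega
    have b8 : p.length ≤ N ^ 4 + N ^ 3 + N ^ 2 := by nlinarith
    unfold L at hlen
    omega
  have hg : Good X (ρ ++ a) := hsuf c (ρ ++ a) (by rw [e1, e7, List.append_assoc]) hc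
  obtain ⟨ρh, hρh⟩ := total2 H ρ₃
  obtain ⟨βh, hβh⟩ := total1 H (ρh ++ t)
  have hR2 : R X (ρ ++ a) (ρh ++ (t ++ sh) ++ a) := by
    apply R.of_T
    refine ⟨ρ₃ ++ τ ++ a', ?_, (hρh.mul hτ).mul saa⟩
    rw [← er2]
    exact sρd.mul saa
  have hR3 : R X (ρh ++ (t ++ sh) ++ a) (ρh ++ c₂) := by
    apply R.of_T
    refine ⟨βh ++ b', ?_, ?_⟩
    · have h1 : ρh ++ (t ++ sh) ++ a = (ρh ++ t) ++ (sh ++ a) := by simp [List.append_assoc]
      rw [h1, es2]
      exact hβh.mul (hsh.mul saa)
    · rw [et2, ← List.append_assoc]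
      exact hβh.mul sbb
  have hS2 : S X (ρ ++ a) (ρ₃ ++ c₃) :=
    hg _ _ (R.refl _) (hR2.trans hR3) _ (hρh.mul scc)
  have h1 : u₁ = c ++ (ρ ++ a) := by rw [e1, e7, List.append_assoc]
  have h2 : v₂ = d ++ (ρ₃ ++ c₃) := by rw [e6, er1, List.append_assoc]
  rw [h1, h2]
  exact scd.mul hS2

/-- If `u` dominates every zigzag, it is related to all right words of its class. -/
theorem related_of_local {u : List α}
    (h : ∀ v₁ u₂ v₂, S X u v₁ → S X u₂ v₁ → S X u₂ v₂ → S X u v₂) {u' : List α}
    (hR : R X u u') : ∀ v, S X u' v → S X u v := by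
  induction hR with
  | refl => exact fun v hv => hv
  | tail _ hT ih =>
    obtain ⟨v', h1, h2⟩ := hT
    intro v hv
    exact h v' _ v (ih v' h1) h2 hv

theorem all_good (H : Hyp X N) (hsmall : ∀ u : List α, u.length < L N → Good X u) :
    ∀ u : List α, Good X u := by
  by_contra hcon
  push Not at hcon
  -- bad word of minimal length
  obtain ⟨z, hz, hmin⟩ : ∃ z : List α, ¬ Good X z ∧ ∀ w : List α, w.length < z.length → Good X w := by
    obtain ⟨u, hu⟩ := hcon
    induction hn : u.length using Nat.strong_induction_on generalizing u with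
    | _ n ih =>
      by_cases h : ∀ w : List α, w.length < u.length → Good X w
      · exact ⟨u, hu, h⟩
      · push Not at h
        obtain ⟨w, hw1, hw2⟩ := h
        exact ih w.length (by omega) w hw2 rfl
  have hzL : L N ≤ z.length := by
    by_contra h
    exact hz (hsmall z (by omega))
  have hzlocal : ∀ v₁ u₂ v₂, S X z v₁ → S X u₂ v₁ → S X u₂ v₂ → S X z v₂ := by
    intro v₁ u₂ v₂ h1 h2 h3
    refine core H h1 h2 h3 hzL ?_ ?_
    · intro p a e ha
      apply hmin
      rw [e, List.length_append]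
      have := List.length_pos_of_ne_nil ha
      omega
    · intro c x e hc
      apply hmin
      rw [e, List.length_append]
      have := List.length_pos_of_ne_nil hc
      omega
  have hzrel : ∀ u', R X z u' → ∀ v, S X u' v → S X z v := fun u' hR => related_of_local hzlocal hR
  have hbound : ∀ u', R X z u' → u'.length ≤ N * (N * z.length) := by
    intro u' hR
    obtain ⟨v, hv⟩ := total1 H u'
    have h1 := (hv.len H).2
    have h2 := ((hzrel u' hR v hv).len H).1
    exact le_trans h1 (Nat.mul_le_mul_left _ h2)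
  -- a maximal context
  let P : ℕ → Prop := fun k => ∃ x w y : List α, R X z (x ++ w ++ y) ∧ ¬ Good X w ∧
    k = x.length + y.length
  have hP0 : P 0 := ⟨[], z, [], by simpa using R.refl z, hz, rfl⟩
  have hPb : ∀ k, P k → k ≤ N * (N * z.length) := by
    rintro k ⟨x, w, y, hR, _, rfl⟩
    have := hbound _ hR
    simp only [List.length_append] at this
    omega
  obtain ⟨k, hk, hkmax⟩ : ∃ k, P k ∧ ∀ k', P k' → k' ≤ k := by
    classical
    refine ⟨Nat.findGreatest P (N * (N * z.length)), ?_, ?_⟩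
    · exact Nat.findGreatest_spec (Nat.zero_le _) hP0
    · intro k' hk'
      exact Nat.le_findGreatest (hPb k' hk') hk'
  obtain ⟨x, w, y, hR, hw, hkxy⟩ := hk
  apply hw
  have hwl : ∀ w₁, R X w w₁ → ∀ v₁ u₂ v₂, S X w₁ v₁ → S X u₂ v₁ → S X u₂ v₂ → S X w₁ v₂ := by
    intro w₁ hw₁ v₁ u₂ v₂ h1 h2 h3
    have hbad : ¬ Good X w₁ := fun hg => hw (hg.of_R hw₁.symm)
    have hlen : L N ≤ w₁.length := by
      by_contra h
      exact hbad (hsmall w₁ (by omega))
    have hR1 : R X z (x ++ w₁ ++ y) := hR.trans (hw₁.ctx H x y)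
    refine core H h1 h2 h3 hlen ?_ ?_
    · intro p a e ha
      by_contra hp
      have := hkmax (x.length + (a ++ y).length) ⟨x, p, a ++ y, ?_, hp, rfl⟩
      · rw [List.length_append] at this
        have h5 := List.length_pos_of_ne_nil ha
        omega
      · rw [e] at hR1
        simpa [List.append_assoc] using hR1
    · intro c s e hc
      by_contra hp
      have := hkmax ((x ++ c).length + y.length) ⟨x ++ c, s, y, ?_, hp, rfl⟩
      · rw [List.length_append] at this
        have h5 := List.length_pos_of_ne_nil hc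
        omega
      · rw [e] at hR1
        simpa [List.append_assoc] using hR1
  intro u' u'' h' h'' v hv
  exact related_of_local (hwl u' h') (h'.symm.trans h'') v hv

/-- Local difunctionality up to length `M`. -/
def Local (X : List (List α × List β)) (M : ℕ) : Prop :=
  ∀ u₁ v₁ u₂ v₂, u₁.length ≤ M → v₁.length ≤ M → u₂.length ≤ M → v₂.length ≤ M →
    S X u₁ v₁ → S X u₂ v₁ → S X u₂ v₂ → S X u₁ v₂

theorem difunctional_of_local (H : Hyp X N) (hN : 1 ≤ N) (M : ℕ) (hM : N ^ 3 * L N ≤ M)
    (hloc : Local X M) : ∀ u₁ v₁ u₂ v₂, S X u₁ v₁ → S X u₂ v₁ → S X u₂ v₂ → S X u₁ v₂ := by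
  have hall : ∀ u : List α, Good X u := by
    apply all_good H
    intro z hz
    have hzM : N ^ 3 * z.length ≤ M := le_trans (Nat.mul_le_mul_left _ hz.le) hM
    have e0 : z.length ≤ N ^ 3 * z.length := Nat.le_mul_of_pos_left _ (by positivity)
    have e1 : N * z.length ≤ N ^ 3 * z.length := by
      apply Nat.mul_le_mul_right
      calc N = N ^ 1 := (pow_one N).symm
        _ ≤ N ^ 3 := Nat.pow_le_pow_right hN (by norm_num)
    have e2 : N * (N * z.length) ≤ N ^ 3 * z.length := by
      rw [← mul_assoc]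
      apply Nat.mul_le_mul_right
      calc N * N = N ^ 2 := (sq N).symm
        _ ≤ N ^ 3 := Nat.pow_le_pow_right hN (by norm_num)
    have e3 : N * (N * (N * z.length)) = N ^ 3 * z.length := by ring
    have hzlocal : ∀ v₁ u₂ v₂, S X z v₁ → S X u₂ v₁ → S X u₂ v₂ → S X z v₂ := by
      intro v₁ u₂ v₂ h1 h2 h3
      have l1 := (h1.len H).1
      have l2 : u₂.length ≤ N * (N * z.length) :=
        le_trans (h2.len H).2 (Nat.mul_le_mul_left _ l1)
      have l3 : v₂.length ≤ N * (N * (N * z.length)) :=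
        le_trans (h3.len H).1 (Nat.mul_le_mul_left _ l2)
      exact hloc z v₁ u₂ v₂ (by omega) (by omega) (by omega) (by omega) h1 h2 h3
    have hzrel : ∀ u', R X z u' → ∀ v, S X u' v → S X z v :=
      fun u' hR => related_of_local hzlocal hR
    intro u' u'' h' h'' v hv
    obtain ⟨v', hv'⟩ := total1 H u'
    have s1 := hzrel u' h' v' hv'
    have s2 := hzrel u'' h'' v hv
    have l1 := (s1.len H).1
    have l2 := (s2.len H).1
    have l3 : u'.length ≤ N * (N * z.length) := le_trans (hv'.len H).2 (Nat.mul_le_mul_left _ l1)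
    exact hloc u' v' z v (by omega) (by omega) (by omega) (by omega) hv' s1 s2
  intro u₁ v₁ u₂ v₂ h1 h2 h3
  exact hall u₁ u₁ u₂ (R.refl _) (R.of_T ⟨v₁, h1, h2⟩) v₂ h3

end Pool.Agent.Lib_b63848
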