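import Mathlib
import Pool.Agent.Lib_b63848.Core

set_option autoImplicit false

namespace Pool.Agent.Lib_b63848

section prods

variable {α β : Type*}

/-- All products of at most `t` elements of `X`. -/
def prods (X : List (List α × List β)) : ℕ → List (List α × List β)
  | 0 => [([], [])]
  | t + 1 => prods X t ++
      (prods X t).flatMap (fun p => X.map (fun x => (p.1 ++ x.1, p.2 ++ x.2)))

variable {X : List (List α × List β)} {N : ℕ}

theorem S_of_mem_prods : ∀ (t : ℕ) (p : List α × List β), p ∈ prods X t → S X p.1 p.2 := by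
  intro t
  induction t with
  | zero =>
    intro p hp
    rw [prods, List.mem_singleton] at hp
    subst hp
    exact S.nil
  | succ t ih =>
    intro p hp
    rw [prods, List.mem_append, List.mem_flatMap] at hp
    rcases hp with hp | ⟨q, hq, hp⟩
    · exact ih p hp
    · rw [List.mem_map] at hp
      obtain ⟨x, hx, rfl⟩ := hp
      exact S.snoc (ih q hq) hx

theorem mem_prods_of_S (hne : ∀ p ∈ X, p.1 ≠ []) {u : List α} {v : List β} (h : S X u v) :
    ∀ t, u.length ≤ t → (u, v) ∈ prods X t := by
  induction h with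
  | nil =>
    intro t _
    induction t with
    | zero => simp [prods]
    | succ t ih =>
      rw [prods, List.mem_append]
      exact Or.inl (ih (by simp))
  | @snoc u v x y _ hx ih =>
    intro t ht
    have h1 := List.length_pos_of_ne_nil (hne _ hx)
    simp only at h1
    rw [List.length_append] at ht
    obtain ⟨t, rfl⟩ : ∃ s, t = s + 1 := ⟨t - 1, by omega⟩
    rw [prods, List.mem_append, List.mem_flatMap]
    right
    refine ⟨(u, v), ih t (by omega), ?_⟩
    rw [List.mem_map]
    exact ⟨(x, y), hx, rfl⟩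

theorem length_of_mem_prods (hlen : ∀ p ∈ X, p.1.length ≤ N) :
    ∀ (t : ℕ) (p : List α × List β), p ∈ prods X t → p.1.length ≤ N * t := by
  intro t
  induction t with
  | zero =>
    intro p hp
    rw [prods, List.mem_singleton] at hp
    subst hp
    simp
  | succ t ih =>
    intro p hp
    rw [prods, List.mem_append, List.mem_flatMap] at hp
    rcases hp with hp | ⟨q, hq, hp⟩
    · have := ih p hp
      rw [mul_add]; omega
    · rw [List.mem_map] at hp
      obtain ⟨x, hx, rfl⟩ := hp
      have h1 := ih q hq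
      have h2 := hlen x hx
      simp only [List.length_append]
      rw [mul_add]; omega

/-- The local test. -/
def Test (X : List (List α × List β)) (M M' : ℕ) : Prop :=
  ∀ x ∈ prods X M, ∀ y ∈ prods X M, ∀ z ∈ prods X M,
    x.2 = y.2 → y.1 = z.1 → (x.1, z.2) ∈ prods X M'

theorem test_iff (H : Hyp X N) (hN : 1 ≤ N) (M : ℕ) (hM : N ^ 3 * L N ≤ M) :
    Test X M (N * M) ↔
      ∀ u₁ v₁ u₂ v₂, S X u₁ v₁ → S X u₂ v₁ → S X u₂ v₂ → S X u₁ v₂ := by
  constructor
  · intro h
    apply difunctional_of_local H hN M hM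
    intro u₁ v₁ u₂ v₂ l1 l2 l3 l4 h1 h2 h3
    exact S_of_mem_prods _ _ (h (u₁, v₁) (mem_prods_of_S H.ne1 h1 M l1) (u₂, v₁)
      (mem_prods_of_S H.ne1 h2 M l3) (u₂, v₂) (mem_prods_of_S H.ne1 h3 M l3) rfl rfl)
  · intro h x hx y hy z hz e1 e2
    apply mem_prods_of_S H.ne1
    · apply h x.1 x.2 y.1 z.2 (S_of_mem_prods _ _ hx)
      · rw [e1]; exact S_of_mem_prods _ _ hy
      · rw [e2]; exact S_of_mem_prods _ _ hz
    · exact length_of_mem_prods H.len1 M x hx

variable {α' β' : Type*}

theorem prods_map (f : α → α') (g : β → β') (X : List (List α × List β)) (t : ℕ) :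
    prods (X.map (Prod.map (List.map f) (List.map g))) t =
      (prods X t).map (Prod.map (List.map f) (List.map g)) := by
  induction t with
  | zero => simp [prods]
  | succ t ih =>
    simp only [prods, ih, List.map_append, List.flatMap_map, List.map_flatMap, List.map_map]
    congr 2
    funext p
    apply List.map_congr_left
    intro x _
    simp

theorem test_map (f : α → α') (g : β → β') (hf : Function.Injective f)
    (hg : Function.Injective g) (X : List (List α × List β)) (M M' : ℕ) :
    Test (X.map (Prod.map (List.map f) (List.map g))) M M' ↔ Test X M M' := by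
  have hf' := List.map_injective_iff.mpr hf
  have hg' := List.map_injective_iff.mpr hg
  unfold Test
  simp only [prods_map, List.forall_mem_map, Prod.map_fst, Prod.map_snd]
  constructor
  · intro h x hx y hy z hz e1 e2
    have h1 := h x hx y hy z hz (by rw [e1]) (by rw [e2])
    rw [List.mem_map] at h1
    obtain ⟨w, hw, e⟩ := h1
    rw [Prod.ext_iff] at e
    have e3 : w.1 = x.1 := hf' e.1
    have e4 : w.2 = z.2 := hg' e.2
    rw [← e3, ← e4]
    exact hw
  · intro h x hx y hy z hz e1 e2
    have h1 := h x hx y hy z hz (hg' e1) (hf' e2)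
    rw [List.mem_map]
    exact ⟨_, h1, rfl⟩

end prods

section primrec

open Primrec

/-- Words over the natural numbers. -/
abbrev W : Type := List (List ℕ × List ℕ)

theorem primrec_prods : Primrec₂ (fun (X : W) (t : ℕ) => prods X t) := by
  have hstep : Primrec₂ (fun (X : W) (q : ℕ × W) => q.2 ++
      q.2.flatMap (fun p => X.map (fun x => (p.1 ++ x.1, p.2 ++ x.2)))) := by
    have h1 : Primrec (fun (a : W × (ℕ × W)) => a.2.2) := snd.comp snd
    refine list_append.comp h1 ?_
    refine list_flatMap h1 ?_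
    refine list_map (fst.comp fst) ?_
    have hp : Primrec (fun (a : ((W × (ℕ × W)) × (List ℕ × List ℕ)) × (List ℕ × List ℕ)) => a.1.2) :=
      snd.comp fst
    have hx : Primrec (fun (a : ((W × (ℕ × W)) × (List ℕ × List ℕ)) × (List ℕ × List ℕ)) => a.2) :=
      snd
    exact (list_append.comp (fst.comp hp) (fst.comp hx)).pair
      (list_append.comp (snd.comp hp) (snd.comp hx))
  have := Primrec.nat_rec (Primrec.const ([([], [])] : W)) hstep
  refine this.of_eq ?_
  intro X t
  induction t with
  | zero => rfl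
  | succ t ih => simp only [prods, ← ih]

theorem primrec_mem : PrimrecRel (fun (a : List ℕ × List ℕ) (l : W) => a ∈ l) := by
  have h : PrimrecRel (fun (l : W) (a : List ℕ × List ℕ) => ∃ b ∈ l, b = a) :=
    PrimrecRel.exists_mem_list Primrec.eq
  have h2 := PrimrecRel.comp h (snd : Primrec (fun q : (List ℕ × List ℕ) × W => q.2)) fst
  exact h2.of_eq (fun q => by simp)

/-- The innermost relation in the test. -/
theorem primrec_test : PrimrecPred (fun (a : W × ℕ × ℕ) => Test a.1 a.2.1 a.2.2) := by
  classical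
  -- context: `(x, y, P, P')`
  let Pr := List ℕ × List ℕ
  have h3 : PrimrecRel (fun (z : Pr) (c : Pr × Pr × W × W) =>
      ¬ (c.1.2 = c.2.1.2) ∨ (¬ (c.2.1.1 = z.1) ∨ (c.1.1, z.2) ∈ c.2.2.2)) := by
    refine PrimrecPred.or ?_ (PrimrecPred.or ?_ ?_)
    · exact (Primrec.eq.comp (snd.comp (fst.comp snd)) (snd.comp (fst.comp (snd.comp snd)))).not
    · exact (Primrec.eq.comp (fst.comp (fst.comp (snd.comp snd))) (fst.comp fst)).not
    · exact primrec_mem.comp ((fst.comp (fst.comp snd)).pair (snd.comp fst))
        (snd.comp (snd.comp (snd.comp snd)))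
  have h3' := PrimrecRel.forall_mem_list h3
  have h2 : PrimrecRel (fun (y : Pr) (c : Pr × W × W) =>
      ∀ z ∈ c.2.1, ¬ (c.1.2 = y.2) ∨ (¬ (y.1 = z.1) ∨ (c.1.1, z.2) ∈ c.2.2)) := by
    have := PrimrecRel.comp h3' (fst.comp (snd.comp snd) : Primrec (fun a : Pr × (Pr × W × W) => a.2.2.1))
      ((fst.comp snd).pair (fst.pair (snd.comp snd)) :
        Primrec (fun a : Pr × (Pr × W × W) => (a.2.1, a.1, a.2.2)))
    exact this
  have h2' := PrimrecRel.forall_mem_list h2
  have h1 : PrimrecRel (fun (x : Pr) (c : W × W) =>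
      ∀ y ∈ c.1, ∀ z ∈ c.1, ¬ (x.2 = y.2) ∨ (¬ (y.1 = z.1) ∨ (x.1, z.2) ∈ c.2)) := by
    have := PrimrecRel.comp h2' (fst.comp snd : Primrec (fun a : Pr × (W × W) => a.2.1))
      (fst.pair snd : Primrec (fun a : Pr × (W × W) => (a.1, a.2)))
    exact this
  have h1' := PrimrecRel.forall_mem_list h1
  have hP : Primrec (fun (a : W × ℕ × ℕ) => prods a.1 a.2.1) :=
    primrec_prods.comp fst (fst.comp snd)
  have hP' : Primrec (fun (a : W × ℕ × ℕ) => prods a.1 a.2.2) :=
    primrec_prods.comp fst (snd.comp snd)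
  have := PrimrecRel.comp h1' hP (hP.pair hP')
  refine this.of_eq ?_
  intro a
  unfold Test
  constructor
  · intro h x hx y hy z hz e1 e2
    rcases h x hx y hy z hz with h | h | h
    · exact absurd e1 h
    · exact absurd e2 h
    · exact h
  · intro h x hx y hy z hz
    by_cases e1 : x.2 = y.2
    · by_cases e2 : y.1 = z.1
      · exact Or.inr (Or.inr (h x hx y hy z hz e1 e2))
      · exact Or.inr (Or.inl e2)
    · exact Or.inl e1

end primrec

end Pool.Agent.Lib_b63848
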